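import Mathlib
import Pool.Agent.Lib_helper95.RegularityDefs
import Pool.Agent.Lib_helper95.RegTransfer
import Pool.Agent.Lib_helper95.MooreLow2

/-!
# The asymptotic regularity of powers of an edge ideal can depend on the characteristic
although the regularity of the edge ideal does not

For every finite set `P` of primes there is a graph whose edge ideal has regularity `5` over every field and for which
the asymptotic linear function of the regularity of the powers is `2q + 3` in the characteristics in `P` and `2q + 2`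
otherwise.  The graph is the join of `G₁ ⊔ K₂` and `C₅ ⊔ C₅`, where the independence complex of `G₁` is a flag
triangulation of the mod `N` Moore space, `N` being the product of the primes in `P`.
Regularity is defined through the Koszul homology of the ideal, see
`Pool.Agent.Lib_helper95.RegularityDefs`.
-/

open Pool.Agent.LibHelper95 Pool.Agent.LibHelper95.Reg Pool.Agent.LibHelper95.Moore

namespace Pool.Agent.Results.MP_9740d9_al.CharDependence

universe u

theorem cast_prod_eq_zero_iff (k : Type u) [Field k] (P : Finset ℕ) (hP : ∀ p ∈ P, p.Prime) :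
    ((∏ p ∈ P, p : ℕ) : k) = 0 ↔ ∃ p ∈ P, CharP k p := by
  rw [Nat.cast_prod, Finset.prod_eq_zero_iff]
  refine exists_congr fun p => and_congr_right fun hp => ?_
  constructor
  · intro h
    obtain ⟨q, hq⟩ := CharP.exists k
    have h1 : q ∣ p := (CharP.cast_eq_zero_iff k q p).1 h
    rcases (Nat.dvd_prime (hP p hp)).1 h1 with rfl | rfl
    · exact absurd rfl (CharP.char_ne_one k 1)
    · exact hq
  · intro h
    exact CharP.cast_eq_zero k p

/-- For every finite set `P` of primes there is a graph `G` such that the regularity of `I(G)` is `5` over every field,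
while the regularity of `I(G) ^ q` is `2q + 3` for all `q ≥ 1` over the fields whose characteristic is in `P`, and
`2q + 2` for all `q ≥ 2` over all other fields. -/
theorem result (P : Finset ℕ) (hP : ∀ p ∈ P, p.Prime) :
    ∃ G : SimpleGraph (Fin (4 * (∏ p ∈ P, p) + 17)), ∀ (k : Type u) [Field k],
      HasReg (edgeIdeal k G) 5 ∧
      ((∃ p ∈ P, CharP k p) → ∀ q : ℕ, 1 ≤ q → HasReg ((edgeIdeal k G) ^ q) (2 * q + 3)) ∧
      ((¬ ∃ p ∈ P, CharP k p) → ∀ q : ℕ, 2 ≤ q → HasReg ((edgeIdeal k G) ^ q) (2 * q + 2)) := by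
  have hN0 : (∏ p ∈ P, p) ≠ 0 := Finset.prod_ne_zero_iff.2 fun p hp => (hP p hp).ne_zero
  have hiff : ∀ (k : Type u) [Field k], ((∏ p ∈ P, p : ℕ) : k) = 0 ↔ ∃ p ∈ P, CharP k p :=
    fun k _ => cast_prod_eq_zero_iff k P hP
  generalize (∏ p ∈ P, p) = N at hN0 hiff ⊢
  have : NeZero N := ⟨hN0⟩
  refine ⟨(GV N).comap (monoEquivOfFin (Vx N) card_Vx), fun k _ => ⟨?_, ?_, ?_⟩⟩
  · have h := hasReg_tr (monoEquivOfFin (Vx N) card_Vx) (GV N) (regLe_any2 (good2 k) 0) (lowC k)
    rwa [pow_one] at h
  · intro hk q hq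
    obtain ⟨q, rfl⟩ : ∃ p, q = p + 1 := ⟨q - 1, by omega⟩
    exact hasReg_tr _ (GV N) (regLe_any2 (good2 k) q) (lowA k ((hiff k).2 hk) q)
  · intro hk q hq
    obtain ⟨q, rfl⟩ : ∃ p, q = p + 2 := ⟨q - 2, by omega⟩
    have hN : (N : k) ≠ 0 := fun h => hk ((hiff k).1 h)
    exact hasReg_tr _ (GV N) (regLe_char2 (good2 k) (fun M hM hM0 => (cyc3 hN).noCyc M hM hM0) q)
      (lowB k (q + 1))

end Pool.Agent.Results.MP_9740d9_al.CharDependence
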